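import Mathlib
import Pool.Agent.H55.Sat4

set_option autoImplicit false

namespace Pool.Agent.Results.MP_a5725d_an.AngDer

open Pool.Agent.H55.HNDefs in
theorem result (φ : ℂ → ℂ) (hφ : DifferentiableOn ℂ φ (Metric.ball 0 1))
    (hm : Set.MapsTo φ (Metric.ball 0 1) (Metric.ball 0 1)) :
    CompSAT φ ↔ (∀ z ∈ Metric.ball (0 : ℂ) 1, φ z = z) ∨
      ∀ᵐ t : ℝ ∂(MeasureTheory.volume.restrict (Set.Ioc 0 (2 * Real.pi))),
        (∃ l : ℂ, ‖l‖ < 1 ∧ RadLim φ t l) ∨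
          ∃ d : ℂ, ‖d‖ < 1 ∧ AngDer φ (Complex.exp (t * Complex.I)) d :=
  Pool.Agent.H55.Sat.full φ hφ hm

end Pool.Agent.Results.MP_a5725d_an.AngDer
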